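import Mathlib

-- merged part: Pool.Agent.Lib.PolyVdW.Base
section
/-!
Congruence constraints over a principal ideal domain: the base case of the induction.
-/

namespace Pool.Agent.Lib.PolyVdW

open Polynomial

variable {A : Type} [CommRing A]

/-- `a` is nonzero and has no prime factor in common with `T`. -/
def Good (T a : A) : Prop := a ≠ 0 ∧ ∀ q : A, Prime q → q ∣ T → ¬ q ∣ a

/-- Multiples of `U` in general position exist. -/
def Generic (m : A[X]) : Prop :=
  ∀ T U : A, T ≠ 0 → U ≠ 0 → ∀ E : Finset A, ∃ l : A, U ∣ l ∧ ∀ e ∈ E,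
    e + l ≠ 0 ∧ m.eval (e + l) ≠ 0 ∧ ∀ q : A, Prime q → q ∣ T → ¬ q ∣ U → ¬ q ∣ m.eval (e + l)

/-- Values of two different translates of `m` have only finitely many possible common primes. -/
def Sep (m : A[X]) : Prop :=
  ∀ a b : A, a ≠ b → ∃ r : A, r ≠ 0 ∧
    ∀ w q : A, Prime q → q ∣ m.eval (a + w) → q ∣ m.eval (b + w) → q ∣ r

/-- The constraint `γ` holds at the point `c` with gap `l`. -/
def Holds (m : A[X]) (γ : A × A[X]) (c l : A) : Prop := m.eval (γ.1 + l) ∣ c + γ.2.eval l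

def Adm (m : A[X]) (T U : A) (γ : A × A[X]) : Prop :=
  m.eval γ.1 ∣ T ∨ ((m.eval γ.1) ^ 2 ∣ U ∧ m.eval γ.1 ∣ γ.2.eval 0)

def AdmSys (m : A[X]) (T U : A) (Γ : Finset (A × A[X])) : Prop :=
  (∀ γ ∈ Γ, Adm m T U γ) ∧ ∀ γ ∈ Γ, ∀ γ' ∈ Γ, γ.1 = γ'.1 → γ = γ'

def Gen (m : A[X]) (T : A) (E : Finset A) (l : A) : Prop :=
  ∀ e ∈ E, e + l ≠ 0 ∧ Good T (m.eval (e + l))

theorem Good.mul [IsDomain A] {T a b : A} (ha : Good T a) (hb : Good T b) : Good T (a * b) :=
  ⟨mul_ne_zero ha.1 hb.1, fun q hq hT h =>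
    (hq.dvd_or_dvd h).elim (ha.2 q hq hT) (hb.2 q hq hT)⟩

theorem good_one [IsDomain A] (T : A) : Good T 1 := ⟨one_ne_zero, fun _ hq _ => hq.not_dvd_one⟩

theorem good_prod [IsDomain A] {ι : Type} (T : A) (s : Finset ι) (f : ι → A)
    (h : ∀ i ∈ s, Good T (f i)) : Good T (∏ i ∈ s, f i) :=
  Finset.prod_induction f (Good T) (fun _ _ => Good.mul) (good_one T) h

theorem dvd_eval_add_sub (p : A[X]) (a l : A) : l ∣ p.eval (a + l) - p.eval a := by
  simpa using sub_dvd_eval_sub (a + l) a p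

theorem Gen.mono {m : A[X]} {T : A} {E E' : Finset A} {l : A} (h : Gen m T E' l)
    (hE : E ⊆ E') : Gen m T E l := fun e he => h e (hE he)

variable [IsDomain A] [IsPrincipalIdealRing A]

theorem single {m : A[X]} (hG : Generic m) (hS : Sep m) {T : A} (hT : T ≠ 0) {U V c₀ : A}
    (hUV : U ∣ V) (hc : U ∣ c₀) (hV : Good T V) (E : Finset A) {Γ : Finset (A × A[X])}
    (hΓ : AdmSys m T U Γ) :
    ∃ c l : A, V ∣ c ∧ V ∣ l ∧ Gen m T E l ∧ (∀ γ ∈ Γ, Good T (m.eval (γ.1 + l))) ∧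
      ∀ γ ∈ Γ, Holds m γ (c₀ + c) l := by
  classical
  have hr : ∀ a b : A, ∃ r : A, r ≠ 0 ∧ (a ≠ b →
      ∀ w q : A, Prime q → q ∣ m.eval (a + w) → q ∣ m.eval (b + w) → q ∣ r) := by
    intro a b
    by_cases h : a = b
    · exact ⟨1, one_ne_zero, fun h' => (h' h).elim⟩
    · obtain ⟨r, h1, h2⟩ := hS a b h
      exact ⟨r, h1, fun _ => h2⟩
  choose r hr0 hr using hr
  set T' := T * ∏ γ ∈ Γ, ∏ γ' ∈ Γ, r γ.1 γ'.1 with hT'
  have hT'0 : T' ≠ 0 := mul_ne_zero hT (Finset.prod_ne_zero_iff.2 fun _ _ =>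
    Finset.prod_ne_zero_iff.2 fun _ _ => hr0 _ _)
  obtain ⟨l, hVl, hl⟩ := hG T' V hT'0 hV.1 (E ∪ Γ.image Prod.fst)
  have hgood : ∀ e ∈ E ∪ Γ.image Prod.fst, Good T (m.eval (e + l)) := fun e he =>
    ⟨(hl e he).2.1, fun q hq hqT =>
      (hl e he).2.2 q hq (hqT.mul_right _) (hV.2 q hq hqT)⟩
  have hmem : ∀ γ ∈ Γ, γ.1 ∈ E ∪ Γ.image Prod.fst := fun γ hγ =>
    Finset.mem_union_right _ (Finset.mem_image_of_mem _ hγ)
  have hab : ∀ γ : Γ, ∃ a b : A, m.eval (γ.1.1 + l) = a * b ∧ a ∣ V ∧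
      a ∣ c₀ + γ.1.2.eval l ∧ IsCoprime b V := by
    rintro ⟨γ, hγ⟩
    rcases hΓ.1 γ hγ with h | ⟨h1, h2⟩
    · refine ⟨1, m.eval (γ.1 + l), (one_mul _).symm, one_dvd _, one_dvd _, ?_⟩
      refine isCoprime_of_prime_dvd (fun h => hV.1 h.2) fun q hq hq1 hq2 => ?_
      have h3 : q ∣ m.eval γ.1 := by
        have h4 := (hq2.trans hVl).trans (dvd_eval_add_sub m γ.1 l)
        have := dvd_sub hq1 h4
        simpa using this
      exact hV.2 q hq (h3.trans h) hq2
    · obtain ⟨u, hu⟩ := h1.trans hUV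
      obtain ⟨v, hv⟩ := hVl
      obtain ⟨h, hh⟩ := dvd_eval_add_sub m γ.1 l
      have ha2 : m.eval γ.1 ∣ (m.eval γ.1) ^ 2 := dvd_pow_self _ two_ne_zero
      refine ⟨m.eval γ.1, 1 + m.eval γ.1 * u * (v * h), ?_, (ha2.trans h1).trans hUV, ?_, ?_⟩
      · show m.eval (γ.1 + l) = _
        rw [sub_eq_iff_eq_add] at hh
        rw [hh, hv, hu]; ring
      · show _ ∣ c₀ + γ.2.eval l
        have h5 : m.eval γ.1 ∣ γ.2.eval (0 + l) - γ.2.eval 0 :=
          (((ha2.trans h1).trans hUV).trans ⟨v, hv⟩).trans (dvd_eval_add_sub γ.2 0 l)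
        have h6 := dvd_add ((ha2.trans h1).trans hc) (dvd_add h5 h2)
        simpa using h6
      · have h7 : IsCoprime (1 + m.eval γ.1 * u * (v * h)) (m.eval γ.1 * u) :=
          ⟨1, -(v * h), by ring⟩
        refine (h7.pow_right (n := 2)).of_isCoprime_of_dvd_right ⟨u, ?_⟩
        rw [hu]; ring
  choose a b hab haV hac hbV using hab
  have hpair : Pairwise (Function.onFun IsCoprime fun γ : Γ => Ideal.span {b γ}) := by
    intro γ γ' hne
    simp only [Function.onFun]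
    rw [Ideal.isCoprime_span_singleton_iff]
    have hne1 : γ.1.1 ≠ γ'.1.1 := fun h => hne (Subtype.ext (hΓ.2 _ γ.2 _ γ'.2 h))
    have hb0 : b γ ≠ 0 := fun h => (hl _ (hmem _ γ.2)).2.1 (by rw [hab γ, h, mul_zero])
    refine isCoprime_of_prime_dvd (fun h => hb0 h.1) fun q hq hq1 hq2 => ?_
    have hq1' : q ∣ m.eval (γ.1.1 + l) := by rw [hab γ]; exact hq1.mul_left _
    have hq2' : q ∣ m.eval (γ'.1.1 + l) := by rw [hab γ']; exact hq2.mul_left _
    have h3 := hr _ _ hne1 l q hq hq1' hq2'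
    have h4 : q ∣ T' :=
      ((h3.trans (Finset.dvd_prod_of_mem (fun γ' : A × A[X] => r γ.1.1 γ'.1) γ'.2)).trans
        (Finset.dvd_prod_of_mem (fun γ : A × A[X] => ∏ γ' ∈ Γ, r γ.1 γ'.1) γ.2)).mul_left _
    have h5 : ¬ q ∣ V := fun h => hq.not_isUnit ((hbV γ).isUnit_of_dvd' hq1 h)
    exact (hl _ (hmem _ γ.2)).2.2 q hq h4 h5 hq1'
  choose s t hst using hbV
  obtain ⟨x, hx⟩ := Ideal.exists_forall_sub_mem_ideal hpair
    (fun γ => -(c₀ + γ.1.2.eval l) * t γ)
  refine ⟨V * x, l, dvd_mul_right _ _, hVl, fun e he =>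
    ⟨(hl e (Finset.mem_union_left _ he)).1, hgood e (Finset.mem_union_left _ he)⟩,
    fun γ hγ => hgood _ (hmem γ hγ), fun γ hγ => ?_⟩
  unfold Holds
  rw [hab ⟨γ, hγ⟩]
  have hco : IsCoprime (a ⟨γ, hγ⟩) (b ⟨γ, hγ⟩) :=
    (IsCoprime.of_isCoprime_of_dvd_right ⟨_, _, hst ⟨γ, hγ⟩⟩ (haV ⟨γ, hγ⟩)).symm
  refine hco.mul_dvd ?_ ?_
  · have := dvd_add (hac ⟨γ, hγ⟩) ((haV ⟨γ, hγ⟩).mul_right x)
    convert this using 1
    ring
  · obtain ⟨y, hy⟩ := Ideal.mem_span_singleton.1 (hx ⟨γ, hγ⟩)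
    have h1 := hst ⟨γ, hγ⟩
    refine ⟨V * y + (c₀ + γ.2.eval l) * s ⟨γ, hγ⟩, ?_⟩
    rw [sub_eq_iff_eq_add] at hy
    simp only at hy
    rw [hy]
    linear_combination (-(c₀ + γ.2.eval l)) * h1

theorem base {m : A[X]} (hG : Generic m) (hS : Sep m) {T : A} (hT : T ≠ 0) {κ : Type} {U : A}
    (hU : Good T U) (E : Finset A) {Γ : κ → Finset (A × A[X])}
    (hΓ : ∀ i, AdmSys m T U (Γ i)) (K : Finset κ) :
    ∃ c V : A, U ∣ c ∧ U ∣ V ∧ Good T V ∧ ∀ i ∈ K, ∃ l : A, U ∣ l ∧ Gen m T E l ∧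
      ∀ γ ∈ Γ i, m.eval (γ.1 + l) ∣ V ∧ Holds m γ c l := by
  classical
  induction K using Finset.induction_on with
  | empty => exact ⟨0, U, dvd_zero _, dvd_rfl, hU, by simp⟩
  | insert i K _ ih =>
    obtain ⟨c₀, V, hc₀, hUV, hV, h⟩ := ih
    obtain ⟨c, l, hc, hl, hgen, hgood, hh⟩ := single hG hS hT hUV hc₀ hV E (hΓ i)
    refine ⟨c₀ + c, V * ∏ γ ∈ Γ i, m.eval (γ.1 + l), dvd_add hc₀ (hUV.trans hc),
      hUV.mul_right _, hV.mul (good_prod T _ _ hgood), fun j hj => ?_⟩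
    rcases Finset.mem_insert.1 hj with rfl | hj
    · exact ⟨l, hUV.trans hl, hgen, fun γ hγ =>
        ⟨(Finset.dvd_prod_of_mem (fun γ : A × A[X] => m.eval (γ.1 + l)) hγ).mul_left _, hh γ hγ⟩⟩
    · obtain ⟨l', h1, h2, h3⟩ := h j hj
      refine ⟨l', h1, h2, fun γ hγ => ⟨(h3 γ hγ).1.mul_right _, ?_⟩⟩
      have := dvd_add (h3 γ hγ).2 ((h3 γ hγ).1.trans hc)
      unfold Holds
      convert this using 1
      ring

end Pool.Agent.Lib.PolyVdW
end

-- merged part: Pool.Agent.Lib.PolyVdW.Compact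
section
/-!
A compactness principle for finite colourings.
-/

namespace Pool.Agent.Lib.PolyVdW

/-- If every colouring has a witness and being a witness depends on finitely many colours only,
then a witness can be read off from the colours on one fixed finite set. -/
theorem compact_colourings {X κ Ω : Type} [Finite κ] [Nonempty κ] (P : (X → κ) → Ω → Prop)
    (hloc : ∀ χ ω, P χ ω → ∃ F : Finset X, ∀ χ' : X → κ, (∀ x ∈ F, χ' x = χ x) → P χ' ω)
    (hex : ∀ χ, ∃ ω, P χ ω) :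
    ∃ F : Finset X, ∃ f : (F → κ) → Ω, ∀ χ : X → κ, P χ (f (fun x => χ x)) := by
  classical
  let _ : TopologicalSpace κ := ⊥
  have _ : DiscreteTopology κ := ⟨rfl⟩
  choose w hw using hex
  choose G hG using fun χ => hloc χ (w χ) (hw χ)
  let N : (X → κ) → Set (X → κ) := fun χ => {χ' | ∀ x ∈ G χ, χ' x = χ x}
  have hopen : ∀ χ, IsOpen (N χ) := by
    intro χ
    have : N χ = ⋂ x ∈ G χ, (fun χ' : X → κ => χ' x) ⁻¹' {χ x} := by
      ext χ'; simp [N]
    rw [this]
    exact isOpen_biInter_finset fun x _ =>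
      (isOpen_discrete _).preimage (continuous_apply x)
  obtain ⟨T, hT⟩ := isCompact_univ.elim_finite_subcover N hopen
    (fun χ _ => Set.mem_iUnion.2 ⟨χ, fun _ _ => rfl⟩)
  have hT' : ∀ χ : X → κ, ∃ χ₀ ∈ T, χ ∈ N χ₀ := by
    intro χ
    have := hT (Set.mem_univ χ)
    simpa using this
  choose g hgT hgN using hT'
  let F : Finset X := T.biUnion G
  let ext : (F → κ) → X → κ := fun τ x =>
    if h : x ∈ F then τ ⟨x, h⟩ else Classical.arbitrary κ
  refine ⟨F, fun τ => w (g (ext τ)), fun χ => ?_⟩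
  apply hG
  intro x hx
  have hxF : x ∈ F := Finset.mem_biUnion.2 ⟨_, hgT _, hx⟩
  have := hgN (ext fun x => χ x) x hx
  rw [← this]
  simp [ext, hxF]

end Pool.Agent.Lib.PolyVdW
end

-- merged part: Pool.Agent.Lib.PolyVdW.Focus
section
/-!
Colour focusing with congruence constraints, and the induction over families of polynomials.
-/

namespace Pool.Agent.Lib.PolyVdW

open Polynomial

variable {A : Type} [CommRing A]

/-- Polynomial van der Waerden for the family `S`, with colour dependent constraints. -/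
def Stmt (m : A[X]) (T : A) (S : Finset A[X]) : Prop :=
  ∀ (κ : Type) [Finite κ] [Nonempty κ] (U : A), Good T U → ∀ (E : Finset A)
    (Γ : κ → Finset (A × A[X])), (∀ i, AdmSys m T U (Γ i)) → ∀ χ : A → κ,
    ∃ c l : A, U ∣ c ∧ U ∣ l ∧ Gen m T E l ∧ (∀ p ∈ S, χ (c + p.eval l) = χ c) ∧
      ∀ γ ∈ Γ (χ c), Holds m γ c l

open Classical in
/-- The derived family. -/
noncomputable def shiftFam (S : Finset A[X]) (p₁ : A[X]) (G : Finset A) : Finset A[X] :=
  ((S.filter (· ≠ 0)) ×ˢ G).image fun x => taylor x.2 x.1 - C (x.1.eval x.2) - p₁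

/-- Arithmetic part of a focused structure. -/
def Arith (m : A[X]) (T U : A) (E : Finset A) {κ : Type} (Γ : κ → Finset (A × A[X]))
    (z : A) (K : Finset κ) (e : κ → A) : Prop :=
  U ∣ z ∧ (∀ i ∈ K, U ∣ e i ∧ Gen m T E (e i) ∧ ∀ γ ∈ Γ i, Holds m γ z (e i)) ∧
    ∀ i ∈ K, ∀ j ∈ K, i ≠ j → ∀ γ ∈ Γ i, ∀ γ' ∈ Γ j, γ.1 + e i ≠ γ'.1 + e j

variable [IsDomain A]

theorem focus {m : A[X]} {T : A} {S : Finset A[X]} {p₁ : A[X]} (hp₁ : p₁.eval 0 = 0)
    (hS : ∀ p ∈ S, p.eval 0 = 0) (IH : ∀ G : Finset A, Stmt m T (shiftFam S p₁ G))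
    {κ : Type} [Finite κ] [Nonempty κ] {U : A} (hU : Good T U) {E : Finset A}
    {Γ : κ → Finset (A × A[X])} (hΓ : ∀ i, AdmSys m T U (Γ i))
    (hE1 : ∀ i, ∀ γ ∈ Γ i, γ.1 ∈ E) (hE2 : ∀ i j, ∀ γ ∈ Γ i, ∀ γ' ∈ Γ j, γ.1 - γ'.1 ∈ E)
    (s : ℕ) : ∀ χ : A → κ, ∃ (z : A) (K : Finset κ) (e : κ → A), Arith m T U E Γ z K e ∧
      (∀ i ∈ K, ∀ p ∈ S, p ≠ 0 → χ (z + p.eval (e i)) = i) ∧ (K.card = s ∨ χ z ∈ K) := by
  classical
  induction s with
  | zero => exact fun χ => ⟨0, ∅, fun _ => 0, ⟨dvd_zero _, by simp, by simp⟩, by simp, by simp⟩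
  | succ s ih =>
    let Ω : Type := {ω : A × Finset κ × (κ → A) × κ // Arith m T U E Γ ω.1 ω.2.1 ω.2.2.1}
    let P : (A → κ) → Ω → Prop := fun χ ω =>
      (∀ i ∈ ω.1.2.1, ∀ p ∈ S, p ≠ 0 → χ (ω.1.1 + p.eval (ω.1.2.2.1 i)) = i) ∧
        χ ω.1.1 = ω.1.2.2.2 ∧ (ω.1.2.1.card = s ∨ ω.1.2.2.2 ∈ ω.1.2.1)
    obtain ⟨F, f, hf⟩ := compact_colourings P (by
      rintro χ ⟨⟨z, K, e, c⟩, hω⟩ ⟨h1, h2, h3⟩
      refine ⟨insert z ((K ×ˢ S).image fun x => z + x.2.eval (e x.1)), fun χ' h => ⟨?_, ?_, h3⟩⟩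
      · intro i hi p hp hp0
        exact (h (z + p.eval (e i)) (Finset.mem_insert_of_mem
          (Finset.mem_image.2 ⟨(i, p), Finset.mem_product.2 ⟨hi, hp⟩, rfl⟩))).trans
          (h1 i hi p hp hp0)
      · simp only at h2 ⊢
        rw [← h2]
        exact h z (Finset.mem_insert_self _ _)) (by
      intro χ
      obtain ⟨z, K, e, h1, h2, h3⟩ := ih χ
      exact ⟨⟨(z, K, e, χ z), h1⟩, h2, rfl, h3⟩)
    have _ : Fintype κ := Fintype.ofFinite κ
    set z : (F → κ) → A := fun τ => (f τ).1.1 with hz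
    set K : (F → κ) → Finset κ := fun τ => (f τ).1.2.1 with hK
    set e : (F → κ) → κ → A := fun τ => (f τ).1.2.2.1 with he
    set c : (F → κ) → κ := fun τ => (f τ).1.2.2.2 with hc
    have har : ∀ τ, Arith m T U E Γ (z τ) (K τ) (e τ) := fun τ => (f τ).2
    have hf' : ∀ χ : A → κ, (∀ i ∈ K (fun x => χ x), ∀ p ∈ S, p ≠ 0 →
        χ (z (fun x => χ x) + p.eval (e (fun x => χ x) i)) = i) ∧
        χ (z (fun x => χ x)) = c (fun x => χ x) ∧
        ((K (fun x => χ x)).card = s ∨ c (fun x => χ x) ∈ K (fun x => χ x)) := hf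
    clear_value z K e c
    clear hf f P Ω hz hK he hc
    let G : Finset A := insert 0 (Finset.univ.biUnion fun τ => (K τ).image (e τ))
    have hG0 : (0 : A) ∈ G := Finset.mem_insert_self _ _
    have hGe : ∀ τ, ∀ i ∈ K τ, e τ i ∈ G := fun τ i hi => Finset.mem_insert_of_mem
      (Finset.mem_biUnion.2 ⟨τ, Finset.mem_univ _, Finset.mem_image_of_mem _ hi⟩)
    let U' : A := U * ∏ τ, ∏ i ∈ K τ, ∏ γ ∈ Γ i, (m.eval (γ.1 + e τ i)) ^ 2
    have hU' : Good T U' := hU.mul (good_prod T _ _ fun τ _ => good_prod T _ _ fun i hi =>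
      good_prod T _ _ fun γ hγ => by
        have := (((har τ).2.1 i hi).2.1 γ.1 (hE1 i γ hγ)).2
        rw [sq]
        exact this.mul this)
    have hUU' : U ∣ U' := dvd_mul_right _ _
    have hmU' : ∀ τ, ∀ i ∈ K τ, ∀ γ ∈ Γ i, (m.eval (γ.1 + e τ i)) ^ 2 ∣ U' := fun τ i hi γ hγ =>
      (((Finset.dvd_prod_of_mem (fun γ : A × A[X] => (m.eval (γ.1 + e τ i)) ^ 2) hγ).trans
        (Finset.dvd_prod_of_mem (fun i => ∏ γ ∈ Γ i, (m.eval (γ.1 + e τ i)) ^ 2) hi)).trans
        (Finset.dvd_prod_of_mem (fun τ => ∏ i ∈ K τ, ∏ γ ∈ Γ i, (m.eval (γ.1 + e τ i)) ^ 2)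
          (Finset.mem_univ τ))).mul_left _
    let Γ' : (F → κ) → Finset (A × A[X]) := fun τ =>
      ((K τ).biUnion fun i => (Γ i).image fun γ =>
        (γ.1 + e τ i, C (z τ) - p₁ + taylor (e τ i) γ.2)) ∪
      (Γ (c τ)).image fun γ => (γ.1, C (z τ) - p₁ + γ.2)
    have hΓ'mem : ∀ τ γ', γ' ∈ Γ' τ ↔ (∃ i ∈ K τ, ∃ γ ∈ Γ i,
        (γ.1 + e τ i, C (z τ) - p₁ + taylor (e τ i) γ.2) = γ') ∨
        ∃ γ ∈ Γ (c τ), (γ.1, C (z τ) - p₁ + γ.2) = γ' := by
      intro τ γ'
      simp only [Γ', Finset.mem_union, Finset.mem_biUnion, Finset.mem_image]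
    have hΓ' : ∀ τ, AdmSys m T U' (Γ' τ) := by
      intro τ
      constructor
      · intro γ' hγ'
        rcases (hΓ'mem τ γ').1 hγ' with ⟨i, hi, γ, hγ, rfl⟩ | ⟨γ, hγ, rfl⟩
        · refine Or.inr ⟨hmU' τ i hi γ hγ, ?_⟩
          have := ((har τ).2.1 i hi).2.2 γ hγ
          unfold Holds at this
          simpa [taylor_eval, hp₁] using this
        · rcases (hΓ (c τ)).1 γ hγ with h | ⟨h1, h2⟩
          · exact Or.inl h
          · refine Or.inr ⟨h1.trans hUU', ?_⟩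
            have h3 : m.eval γ.1 ∣ z τ :=
              ((dvd_pow_self _ two_ne_zero).trans h1).trans (har τ).1
            simpa [hp₁] using dvd_add h3 h2
      · intro γ₁ hγ₁ γ₂ hγ₂ h
        have key : ∀ i ∈ K τ, ∀ γ ∈ Γ i, ∀ γ' ∈ Γ (c τ), γ.1 + e τ i ≠ γ'.1 := by
          intro i hi γ hγ γ' hγ' h
          apply (((har τ).2.1 i hi).2.1 _ (hE2 i (c τ) γ hγ γ' hγ')).1
          rw [← h]; ring
        rcases (hΓ'mem τ γ₁).1 hγ₁ with ⟨i, hi, γ, hγ, rfl⟩ | ⟨γ, hγ, rfl⟩ <;>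
        rcases (hΓ'mem τ γ₂).1 hγ₂ with ⟨j, hj, γ', hγ', rfl⟩ | ⟨γ', hγ', rfl⟩
        · by_cases hij : i = j
          · subst hij
            have := (hΓ i).2 γ hγ γ' hγ' (add_right_cancel h)
            rw [this]
          · exact ((har τ).2.2 i hi j hj hij γ hγ γ' hγ' h).elim
        · exact (key i hi γ hγ γ' hγ' h).elim
        · exact (key j hj γ' hγ' γ hγ h.symm).elim
        · have := (hΓ (c τ)).2 γ hγ γ' hγ' h
          rw [this]
    intro χ
    obtain ⟨B, l, hB, hl, hgen, hcol, hcon⟩ := IH G (F → κ) U' hU'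
      ((E ×ˢ G).image fun x => x.1 + x.2) Γ' hΓ' (fun B x => χ (B + x))
    set τ : F → κ := fun x => χ (B + x) with hτ
    have hgen' : ∀ g ∈ G, Gen m T E (g + l) := fun g hg d hd => by
      have := hgen (d + g) (Finset.mem_image.2 ⟨(d, g), Finset.mem_product.2 ⟨hd, hg⟩, rfl⟩)
      rwa [add_assoc] at this
    have hshift : ∀ p ∈ S, p ≠ 0 → ∀ g ∈ G,
        (fun x : F => χ (B + (p.eval (l + g) - p.eval g - p₁.eval l) + x)) = τ := by
      intro p hp hp0 g hg
      have := hcol (taylor g p - C (p.eval g) - p₁) (Finset.mem_image.2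
        ⟨(p, g), Finset.mem_product.2 ⟨Finset.mem_filter.2 ⟨hp, hp0⟩, hg⟩, rfl⟩)
      simpa [taylor_eval] using this
    have h0 := hf' (fun x => χ (B + x))
    by_cases hcK : c τ ∈ K τ
    · refine ⟨B + z τ, K τ, e τ, ⟨dvd_add (hUU'.trans hB) (har τ).1, fun i hi =>
        ⟨((har τ).2.1 i hi).1, ((har τ).2.1 i hi).2.1, fun γ hγ => ?_⟩, (har τ).2.2⟩, ?_, ?_⟩
      · have h1 : m.eval (γ.1 + e τ i) ∣ B :=
          ((dvd_pow_self _ two_ne_zero).trans (hmU' τ i hi γ hγ)).trans hB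
        have := dvd_add h1 (((har τ).2.1 i hi).2.2 γ hγ)
        unfold Holds
        rwa [add_assoc]
      · intro i hi p hp hp0
        rw [add_assoc]
        exact h0.1 i hi p hp hp0
      · right
        rw [h0.2.1]
        exact hcK
    · have hcard : (K τ).card = s := h0.2.2.resolve_right hcK
      have hlp : U ∣ p₁.eval l := by
        have := (hUU'.trans hl).trans (dvd_eval_add_sub p₁ 0 l)
        simpa [hp₁] using this
      have hne : ∀ i ∈ K τ, i ≠ c τ := fun i hi h => hcK (h ▸ hi)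
      refine ⟨B + z τ - p₁.eval l, insert (c τ) (K τ),
        fun i => if i = c τ then l else e τ i + l,
        ⟨dvd_sub (dvd_add (hUU'.trans hB) (har τ).1) hlp, fun i hi => ?_, ?_⟩, ?_, ?_⟩
      · rcases Finset.mem_insert.1 hi with rfl | hi
        · simp only [if_true]
          refine ⟨hUU'.trans hl, by simpa using hgen' 0 hG0, fun γ hγ => ?_⟩
          have := hcon _ ((hΓ'mem τ _).2 (Or.inr ⟨γ, hγ, rfl⟩))
          unfold Holds at this ⊢
          simp only [eval_add, eval_sub, eval_C] at this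
          convert this using 1
          ring
        · simp only [if_neg (hne i hi)]
          refine ⟨dvd_add ((har τ).2.1 i hi).1 (hUU'.trans hl), hgen' _ (hGe τ i hi),
            fun γ hγ => ?_⟩
          have := hcon _ ((hΓ'mem τ _).2 (Or.inl ⟨i, hi, γ, hγ, rfl⟩))
          unfold Holds at this ⊢
          simp only [eval_add, eval_sub, eval_C, taylor_eval] at this
          rw [← add_assoc, add_comm (e τ i) l]
          convert this using 1
          ring
      · have key : ∀ i ∈ K τ, ∀ γ ∈ Γ i, ∀ γ' ∈ Γ (c τ), γ.1 + (e τ i + l) ≠ γ'.1 + l := by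
          intro i hi γ hγ γ' hγ' h
          apply (((har τ).2.1 i hi).2.1 _ (hE2 i (c τ) γ hγ γ' hγ')).1
          linear_combination h
        intro i hi j hj hij γ hγ γ' hγ'
        rcases Finset.mem_insert.1 hi with rfl | hi <;> rcases Finset.mem_insert.1 hj with rfl | hj
        · exact (hij rfl).elim
        · simp only [if_true, if_neg (hne j hj)]
          exact (key j hj γ' hγ' γ hγ).symm
        · simp only [if_true, if_neg (hne i hi)]
          exact key i hi γ hγ γ' hγ'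
        · simp only [if_neg (hne i hi), if_neg (hne j hj)]
          intro h
          apply (har τ).2.2 i hi j hj hij γ hγ γ' hγ'
          linear_combination h
      · intro i hi p hp hp0
        rcases Finset.mem_insert.1 hi with rfl | hi
        · simp only [if_true]
          have h1 := (hf' (fun x => χ (B + (p.eval (l + 0) - p.eval 0 - p₁.eval l) + x))).2.1
          rw [hshift p hp hp0 0 hG0] at h1
          rw [← h1]
          congr 1
          rw [hS p hp, add_zero]; ring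
        · simp only [if_neg (hne i hi)]
          have h1 := (hf' (fun x =>
            χ (B + (p.eval (l + e τ i) - p.eval (e τ i) - p₁.eval l) + x))).1
          rw [hshift p hp hp0 _ (hGe τ i hi)] at h1
          refine Eq.trans ?_ (h1 i hi p hp hp0)
          congr 1
          rw [add_comm (e τ i) l]; ring
      · left
        rw [Finset.card_insert_of_notMem hcK, hcard]

theorem step {m : A[X]} {T : A} {S : Finset A[X]} {p₁ : A[X]} (hp₁ : p₁.eval 0 = 0)
    (hS : ∀ p ∈ S, p.eval 0 = 0) (IH : ∀ G : Finset A, Stmt m T (shiftFam S p₁ G)) :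
    Stmt m T S := by
  classical
  intro κ _ _ U hU E Γ hΓ χ
  have _ : Fintype κ := Fintype.ofFinite κ
  let O : Finset A := Finset.univ.biUnion fun i => (Γ i).image Prod.fst
  have hO : ∀ i, ∀ γ ∈ Γ i, γ.1 ∈ O := fun i γ hγ =>
    Finset.mem_biUnion.2 ⟨i, Finset.mem_univ _, Finset.mem_image_of_mem _ hγ⟩
  obtain ⟨z, K, e, h1, h2, h3⟩ := focus hp₁ hS IH hU
    (E := E ∪ (O ∪ (O ×ˢ O).image fun x => x.1 - x.2)) hΓ
    (fun i γ hγ => Finset.mem_union_right _ (Finset.mem_union_left _ (hO i γ hγ)))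
    (fun i j γ hγ γ' hγ' => Finset.mem_union_right _ (Finset.mem_union_right _
      (Finset.mem_image.2 ⟨(γ.1, γ'.1), Finset.mem_product.2 ⟨hO i γ hγ, hO j γ' hγ'⟩, rfl⟩)))
    (Fintype.card κ + 1) χ
  have hK : χ z ∈ K := h3.resolve_left fun h => by
    have := K.card_le_univ
    omega
  refine ⟨z, e (χ z), h1.1, (h1.2.1 _ hK).1, (h1.2.1 _ hK).2.1.mono Finset.subset_union_left,
    fun p hp => ?_, (h1.2.1 _ hK).2.2⟩
  by_cases hp0 : p = 0
  · simp [hp0]
  · exact h2 _ hK p hp hp0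

end Pool.Agent.Lib.PolyVdW
end

-- merged part: Pool.Agent.Lib.PolyVdW.PET
section
/-!
The induction over families of polynomials, and the deformation step.
-/

namespace Pool.Agent.Lib.PolyVdW

open Polynomial

variable {A : Type} [CommRing A] [IsDomain A]

omit [IsDomain A] in
theorem natDegree_pos_of_eval_zero {p : A[X]} (h0 : p.eval 0 = 0) (hp : p ≠ 0) :
    0 < p.natDegree := by
  by_contra h
  have h1 : p.natDegree = 0 := by omega
  rw [eq_C_of_natDegree_eq_zero h1] at h0 hp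
  simp only [eval_C] at h0
  simp [h0] at hp

omit [IsDomain A] in
theorem shift_coeff (p : A[X]) (g : A) (hp : 0 < p.natDegree) (p₁ : A[X]) {n : ℕ}
    (hn : p.natDegree ≤ n) :
    (taylor g p - C (p.eval g) - p₁).coeff n = p.coeff n - p₁.coeff n := by
  rw [coeff_sub, coeff_sub, coeff_C, if_neg (by omega), sub_zero]
  congr 1
  rcases hn.eq_or_lt with rfl | hn
  · rw [coeff_taylor_natDegree]; rfl
  · rw [coeff_eq_zero_of_natDegree_lt hn,
      coeff_eq_zero_of_natDegree_lt (by rwa [natDegree_taylor])]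

/-- The number of leading terms in each degree. -/
noncomputable def wt (L : Finset (ℕ × A)) : ℕ →₀ ℕ := Multiset.toFinsupp (L.val.map Prod.fst)

omit [CommRing A] [IsDomain A] in
theorem wt_apply (L : Finset (ℕ × A)) (d : ℕ) : wt L d = (L.filter fun x => d = x.1).card := by
  simp only [wt, Multiset.toFinsupp_apply, Multiset.count_map]
  rfl

variable [IsPrincipalIdealRing A]

theorem stmt_all {m : A[X]} (hG : Generic m) (hSep : Sep m) {T : A} (hT : T ≠ 0)
    (S : Finset A[X]) (hS : ∀ p ∈ S, p.eval 0 = 0) : Stmt m T S := by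
  classical
  have hwf : WellFounded (Finsupp.Lex (α := ℕ) (N := ℕ) (· > ·) (· < ·)) :=
    Finsupp.Lex.wellFounded' (fun _ => not_lt_zero) wellFounded_lt wellFounded_lt
  suffices H : ∀ L : Finset (ℕ × A), ∀ S : Finset A[X], (∀ p ∈ S, p.eval 0 = 0) →
      (∀ p ∈ S, p ≠ 0 → (p.natDegree, p.leadingCoeff) ∈ L) → Stmt m T S from
    H (S.image fun p => (p.natDegree, p.leadingCoeff)) S hS
      fun p hp _ => Finset.mem_image_of_mem _ hp
  intro L
  induction L using (InvImage.wf wt hwf).induction with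
  | _ L ih =>
  intro S hS hL
  by_cases h0 : ∀ p ∈ S, p = 0
  · intro κ _ _ U hU E Γ hΓ χ
    have _ : Fintype κ := Fintype.ofFinite κ
    obtain ⟨c, V, hc, -, -, h⟩ := base hG hSep hT hU E hΓ Finset.univ
    obtain ⟨l, h1, h2, h3⟩ := h (χ c) (Finset.mem_univ _)
    exact ⟨c, l, hc, h1, h2, fun p hp => by simp [h0 p hp], fun γ hγ => (h3 γ hγ).2⟩
  push Not at h0
  obtain ⟨p₁, hp₁, hmin⟩ := (S.filter (· ≠ 0)).exists_min_image natDegree
    (by obtain ⟨p, hp, hp0⟩ := h0; exact ⟨p, Finset.mem_filter.2 ⟨hp, hp0⟩⟩)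
  obtain ⟨hp₁S, hp₁0⟩ := Finset.mem_filter.1 hp₁
  refine step (hS p₁ hp₁S) hS fun G => ?_
  set D := p₁.natDegree with hD
  set c₁ := p₁.leadingCoeff with hc₁
  let L' : Finset (ℕ × A) := (L.filter fun x => D < x.1) ∪
    (((L.filter fun x => D = x.1 ∧ x.2 ≠ c₁).image fun x => (D, x.2 - c₁)) ∪
      ((shiftFam S p₁ G).filter fun q => q.natDegree < D).image
        fun q => (q.natDegree, q.leadingCoeff))
  have hmem : ∀ q ∈ shiftFam S p₁ G, ∃ p ∈ S, p ≠ 0 ∧ ∃ g,
      q = taylor g p - C (p.eval g) - p₁ := by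
    intro q hq
    unfold shiftFam at hq
    obtain ⟨⟨p, g⟩, hx, rfl⟩ := Finset.mem_image.1 hq
    obtain ⟨h1, -⟩ := Finset.mem_product.1 hx
    obtain ⟨h2, h3⟩ := Finset.mem_filter.1 h1
    exact ⟨p, h2, h3, g, rfl⟩
  refine ih L' ⟨D, fun d hd => ?_, ?_⟩ _ (fun q hq => ?_) (fun q hq hq0 => ?_)
  · rw [wt_apply, wt_apply]
    congr 1
    ext ⟨n, a⟩
    simp only [L', Finset.mem_filter, Finset.mem_union, Finset.mem_image, Prod.mk.injEq]
    constructor
    · rintro ⟨h | ⟨x, -, h, -⟩ | ⟨x, ⟨-, h1⟩, h, -⟩, rfl⟩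
      · exact ⟨h.1, rfl⟩
      · omega
      · omega
    · rintro ⟨h, rfl⟩
      exact ⟨Or.inl ⟨h, hd⟩, rfl⟩
  · show wt L' D < wt L D
    rw [wt_apply, wt_apply]
    have h1 : (L'.filter fun x => D = x.1) ⊆
        (L.filter fun x => D = x.1 ∧ x.2 ≠ c₁).image fun x => (D, x.2 - c₁) := by
      rintro ⟨n, a⟩ hx
      simp only [L', Finset.mem_filter, Finset.mem_union] at hx
      obtain ⟨h | h | h, rfl⟩ := hx
      · omega
      · exact h
      · simp only [Finset.mem_image, Finset.mem_filter, Prod.mk.injEq] at h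
        obtain ⟨x, ⟨-, h1⟩, h, -⟩ := h
        omega
    refine lt_of_le_of_lt ((Finset.card_le_card h1).trans Finset.card_image_le)
      (Finset.card_lt_card ⟨fun x hx => ?_, fun h => ?_⟩)
    · rw [Finset.mem_filter] at hx ⊢
      exact ⟨hx.1, hx.2.1⟩
    · have := h (Finset.mem_filter.2 ⟨hL p₁ hp₁S hp₁0, rfl⟩)
      exact (Finset.mem_filter.1 this).2.2 rfl
  · obtain ⟨p, hp, -, g, rfl⟩ := hmem q hq
    simp [taylor_eval, hS p₁ hp₁S]
  · by_cases hlow : q.natDegree < D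
    · exact Finset.mem_union_right _ (Finset.mem_union_right _
        (Finset.mem_image_of_mem _ (Finset.mem_filter.2 ⟨hq, hlow⟩)))
    obtain ⟨p, hp, hp0, g, hq'⟩ := hmem q hq
    have hDp : D ≤ p.natDegree := hmin p (Finset.mem_filter.2 ⟨hp, hp0⟩)
    have hpos := natDegree_pos_of_eval_zero (hS p hp) hp0
    have hco : ∀ n, p.natDegree ≤ n → q.coeff n = p.coeff n - p₁.coeff n := fun n hn => by
      rw [hq']; exact shift_coeff p g hpos p₁ hn
    have hle : q.natDegree ≤ p.natDegree := by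
      rw [natDegree_le_iff_coeff_eq_zero]
      intro n hn
      rw [hco n hn.le, coeff_eq_zero_of_natDegree_lt hn,
        coeff_eq_zero_of_natDegree_lt (lt_of_le_of_lt hDp hn), sub_zero]
    rcases hDp.eq_or_lt with h | h
    · have h1 : q.natDegree = D := by omega
      have h2 : q.leadingCoeff = p.leadingCoeff - c₁ := by
        rw [leadingCoeff, h1, hco D h.ge, hc₁, leadingCoeff, leadingCoeff, ← h]
      refine Finset.mem_union_right _ (Finset.mem_union_left _ (Finset.mem_image.2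
        ⟨(p.natDegree, p.leadingCoeff), Finset.mem_filter.2 ⟨hL p hp hp0, h, ?_⟩, ?_⟩))
      · intro h3
        apply hq0
        rw [← leadingCoeff_eq_zero, h2]
        exact sub_eq_zero.2 h3
      · rw [h1, h2]
    · have h2 : q.coeff p.natDegree = p.leadingCoeff := by
        rw [hco _ le_rfl, coeff_eq_zero_of_natDegree_lt h, sub_zero, leadingCoeff]
      have h1 : q.natDegree = p.natDegree :=
        le_antisymm hle (le_natDegree_of_ne_zero (by rw [h2]; simpa using hp0))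
      refine Finset.mem_union_left _ (Finset.mem_filter.2 ⟨?_, by simpa [h1] using h⟩)
      rw [leadingCoeff, h1, h2]
      exact hL p hp hp0

/-- Polynomial van der Waerden with base point divisible by `m(w)`, `w` the gap. -/
theorem exists_mono_dvd {m : A[X]} (hG : Generic m) (hSep : Sep m) (S : Finset A[X])
    (hS : ∀ p ∈ S, p.eval 0 = 0) {κ : Type} [Finite κ] [Nonempty κ] (χ : A → κ) :
    ∃ x w : A, w ≠ 0 ∧ m.eval w ≠ 0 ∧
      ∀ p ∈ S, χ (m.eval w * x + p.eval w) = χ (m.eval w * x) := by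
  classical
  let Ω : Type := {ω : A × A × κ // m.eval ω.2.1 ≠ 0}
  let P : (A → κ) → Ω → Prop := fun χ ω =>
    χ ω.1.1 = ω.1.2.2 ∧ ∀ p ∈ S, χ (ω.1.1 + p.eval ω.1.2.1) = ω.1.2.2
  obtain ⟨F, f, hf⟩ := compact_colourings P (by
    rintro χ ⟨⟨y, e, c⟩, hω⟩ ⟨h1, h2⟩
    refine ⟨insert y (S.image fun p => y + p.eval e), fun χ' h => ⟨?_, fun p hp => ?_⟩⟩
    · exact (h y (Finset.mem_insert_self _ _)).trans h1
    · exact (h (y + p.eval e) (Finset.mem_insert_of_mem
        (Finset.mem_image.2 ⟨p, hp, rfl⟩))).trans (h2 p hp)) (by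
    intro χ
    obtain ⟨y, e, -, -, h1, h2, -⟩ := stmt_all hG hSep one_ne_zero S hS κ 1 (good_one 1) {0}
      (fun _ => ∅) (fun _ => ⟨by simp, by simp⟩) χ
    exact ⟨⟨(y, e, χ y), by simpa using (h1 0 (by simp)).2.1⟩, rfl, h2⟩)
  have _ : Fintype κ := Fintype.ofFinite κ
  set y : (F → κ) → A := fun τ => (f τ).1.1 with hy
  set e : (F → κ) → A := fun τ => (f τ).1.2.1 with he
  set c : (F → κ) → κ := fun τ => (f τ).1.2.2 with hc
  have har : ∀ τ, m.eval (e τ) ≠ 0 := fun τ => (f τ).2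
  have hf' : ∀ χ : A → κ, χ (y fun x => χ x) = c (fun x => χ x) ∧
      ∀ p ∈ S, χ (y (fun x => χ x) + p.eval (e fun x => χ x)) = c (fun x => χ x) := hf
  clear_value y e c
  clear hf f P Ω hy he hc
  let G : Finset A := Finset.univ.image e
  obtain ⟨B, l, -, -, hgen, hcol, hcon⟩ := stmt_all hG hSep
    (T := ∏ τ, m.eval (e τ)) (Finset.prod_ne_zero_iff.2 fun τ _ => har τ)
    ((S ×ˢ G).image fun x => taylor x.2 x.1 - C (x.1.eval x.2))
    (by
      intro q hq
      obtain ⟨x, -, rfl⟩ := Finset.mem_image.1 hq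
      simp [taylor_eval])
    (F → κ) 1 (good_one _) G (fun τ => {(e τ, C (y τ))})
    (fun τ => ⟨fun γ hγ => by
      rw [Finset.mem_singleton.1 hγ]
      exact Or.inl (Finset.dvd_prod_of_mem (fun τ => m.eval (e τ)) (Finset.mem_univ τ)),
      fun γ hγ γ' hγ' _ => by rw [Finset.mem_singleton.1 hγ, Finset.mem_singleton.1 hγ']⟩)
    (fun B x => χ (B + x))
  set τ : F → κ := fun x => χ (B + x) with hτ
  have hGe : e τ ∈ G := Finset.mem_image_of_mem _ (Finset.mem_univ _)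
  obtain ⟨x, hx⟩ := hcon _ (Finset.mem_singleton_self _)
  simp only [eval_C] at hx
  refine ⟨x, e τ + l, (hgen _ hGe).1, (hgen _ hGe).2.1, fun p hp => ?_⟩
  have h1 := hcol (taylor (e τ) p - C (p.eval (e τ))) (Finset.mem_image.2
    ⟨(p, e τ), Finset.mem_product.2 ⟨hp, hGe⟩, rfl⟩)
  simp only [eval_sub, taylor_eval, eval_C] at h1
  have h2 := (hf' fun x => χ (B + (p.eval (l + e τ) - p.eval (e τ)) + x)).2 p hp
  rw [h1] at h2
  have h3 := (hf' fun x => χ (B + x)).1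
  rw [← hx]
  refine Eq.trans ?_ (h2.trans h3.symm)
  congr 1
  rw [add_comm (e τ) l]; ring

end Pool.Agent.Lib.PolyVdW
end

-- merged part: Pool.Agent.Lib.PolyVdW.Int
section
/-!
Polynomial van der Waerden over the integers with base point divisible by `Q(d)`.
-/

namespace Pool.Agent.Lib.PolyVdW

open Polynomial Filter

theorem finite_bad {A B : Type} [CommRing A] [CommRing B] [IsDomain B] [CharZero B]
    (φ : A →+* B) {m : A[X]} (hm : m.map φ ≠ 0) {U : A} (hU : φ U ≠ 0) (e : A) :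
    {n : ℕ | φ (m.eval (e + n * U)) = 0}.Finite := by
  have h1 : {n : ℕ | φ (m.eval (e + n * U)) = 0} =
      (fun n : ℕ => φ (e + n * U)) ⁻¹' {x | IsRoot (m.map φ) x} := by
    ext n
    simp only [Set.mem_ofPred_eq, Set.mem_preimage, IsRoot.def, eval_map, eval₂_at_apply]
  rw [h1]
  refine (finite_setOfPred_isRoot hm).preimage fun a _ b _ hab => ?_
  simp only [map_add, map_mul, map_natCast, add_right_inj] at hab
  exact_mod_cast mul_right_cancel₀ hU hab

theorem generic_of_primitive {A : Type} [CommRing A] [IsDomain A] [IsPrincipalIdealRing A]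
    [Algebra ℚ A] {m : A[X]} (hm0 : m ≠ 0)
    (hm : ∀ q : A, Prime q → m.map (Ideal.Quotient.mk (Ideal.span {q})) ≠ 0) : Generic m := by
  classical
  intro T U hT hU E
  have _ : CharZero A := algebraRat.charZero A
  have h1 : ∀ e : A, {n : ℕ | e + n * U = 0}.Finite := fun e => by
    simpa using finite_bad (RingHom.id A) (m := X) (by simp) (U := U) hU e
  have h2 : ∀ e : A, {n : ℕ | m.eval (e + n * U) = 0}.Finite := fun e => by
    simpa using finite_bad (RingHom.id A) (m := m) (by simpa using hm0) (U := U) hU e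
  have h3 : ∀ e q : A, {n : ℕ | Prime q ∧ ¬ q ∣ U ∧ q ∣ m.eval (e + n * U)}.Finite := by
    intro e q
    by_cases hq : Prime q ∧ ¬ q ∣ U
    · have _ : (Ideal.span {q}).IsPrime := (Ideal.span_singleton_prime hq.1.ne_zero).2 hq.1
      have _ : CharZero (A ⧸ Ideal.span {q}) := algebraRat.charZero _
      refine (finite_bad (Ideal.Quotient.mk (Ideal.span {q})) (hm q hq.1) (U := U) ?_ e).subset ?_
      · rw [Ne, Ideal.Quotient.eq_zero_iff_mem, Ideal.mem_span_singleton]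
        exact hq.2
      · intro n hn
        rw [Set.mem_ofPred_eq, Ideal.Quotient.eq_zero_iff_mem, Ideal.mem_span_singleton]
        exact hn.2.2
    · refine Set.finite_empty.subset fun n hn => hq ⟨hn.1, hn.2.1⟩
  have hfin : (⋃ e ∈ E, ({n : ℕ | e + n * U = 0} ∪ {n : ℕ | m.eval (e + n * U) = 0} ∪
      ⋃ q ∈ (UniqueFactorizationMonoid.factors T).toFinset,
        {n : ℕ | Prime q ∧ ¬ q ∣ U ∧ q ∣ m.eval (e + n * U)})).Finite :=
    E.finite_toSet.biUnion fun e _ => ((h1 e).union (h2 e)).union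
      ((Finset.finite_toSet _).biUnion fun q _ => h3 e q)
  obtain ⟨n, hn⟩ := hfin.exists_notMem
  simp only [Set.mem_iUnion, Set.mem_union, Set.mem_ofPred_eq, not_exists, not_or,
    Multiset.mem_toFinset] at hn
  refine ⟨n * U, dvd_mul_left _ _, fun e he => ⟨(hn e he).1.1, (hn e he).1.2,
    fun q hq hqT hqU hqm => ?_⟩⟩
  obtain ⟨q', hq', ha⟩ := UniqueFactorizationMonoid.exists_mem_factors_of_dvd hT hq.irreducible hqT
  exact (hn e he).2 q' hq' ⟨ha.prime hq, fun h => hqU (ha.dvd.trans h), ha.symm.dvd.trans hqm⟩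

/-- A nonzero polynomial vanishing at all differences of roots of `Q`. -/
theorem exists_diff_poly {Q : ℚ[X]} (hQ : Q ≠ 0) : ∃ ρ : ℚ[X], ρ ≠ 0 ∧
    ∀ (L : Type) [CommRing L] [Algebra ℚ L] (a b : L), aeval a Q = 0 → aeval b Q = 0 →
      aeval (a - b) ρ = 0 := by
  have _ : Module.Finite ℚ (AdjoinRoot Q) := (AdjoinRoot.powerBasis hQ).finite
  obtain ⟨ρ, h1, h2⟩ : IsIntegral ℚ
      ((AdjoinRoot.root Q ⊗ₜ[ℚ] 1 - 1 ⊗ₜ[ℚ] AdjoinRoot.root Q :
        TensorProduct ℚ (AdjoinRoot Q) (AdjoinRoot Q))) := Algebra.IsIntegral.isIntegral _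
  refine ⟨ρ, h1.ne_zero, fun L _ _ a b ha hb => ?_⟩
  let f := Algebra.TensorProduct.productMap (AdjoinRoot.liftAlgHom Q (Algebra.ofId ℚ L) a ha)
    (AdjoinRoot.liftAlgHom Q (Algebra.ofId ℚ L) b hb)
  have h3 : f (AdjoinRoot.root Q ⊗ₜ[ℚ] 1 - 1 ⊗ₜ[ℚ] AdjoinRoot.root Q) = a - b := by
    simp [f]
  rw [← h3, aeval_algHom_apply, aeval_def, h2, map_zero]

/-- Dilation `p(w) ↦ p(t w)` with coefficients in `ℚ[t]`. -/
noncomputable def dil (p : ℤ[X]) : ℚ[X][X] := (p.map (Int.castRingHom ℚ[X])).comp (C X * X)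

theorem eval_dil (p : ℤ[X]) (w : ℚ[X]) : (dil p).eval w = aeval (X * w) p := by
  simp [dil, eval_comp, eval_map, aeval_def]
  rfl

theorem eventually_int (y : ℚ[X]) :
    ∀ᶠ n : ℕ in atTop, ∃ k : ℤ, (X * y).eval (n.factorial : ℚ) = (k : ℚ) := by
  induction y using Polynomial.induction_on' with
  | add p q hp hq =>
    filter_upwards [hp, hq] with n ⟨k, hk⟩ ⟨l, hl⟩
    exact ⟨k + l, by rw [mul_add, eval_add, hk, hl]; simp⟩
  | monomial j a =>
    filter_upwards [eventually_ge_atTop a.den] with n hn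
    obtain ⟨u, hu⟩ := Nat.dvd_factorial a.den_pos hn
    refine ⟨a.num * u * n.factorial ^ j, ?_⟩
    simp only [eval_mul, eval_X, eval_monomial]
    push_cast
    have h1 : (n.factorial : ℚ) * a = a.num * u := by
      rw [hu]
      push_cast
      linear_combination (u : ℚ) * Rat.den_mul_eq_num a
    rw [← h1]; ring

theorem eventually_ne_zero {y : ℚ[X]} (hy : y ≠ 0) :
    ∀ᶠ n : ℕ in atTop, y.eval (n.factorial : ℚ) ≠ 0 := by
  obtain ⟨b, hb⟩ := (finite_setOfPred_isRoot hy).bddAbove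
  obtain ⟨N, hN⟩ := exists_nat_gt b
  filter_upwards [eventually_ge_atTop N] with n hn h
  have h1 := hb h
  have h2 : (N : ℚ) ≤ n.factorial := by exact_mod_cast hn.trans (Nat.self_le_factorial n)
  linarith

theorem int_main (Q : ℤ[X]) (hQ : Q ≠ 0) (S : Finset ℤ[X]) (hS : ∀ p ∈ S, p.eval 0 = 0)
    {κ : Type} [Finite κ] (χ : ℤ → κ) :
    ∃ x d : ℤ, d ≠ 0 ∧ Q.eval d ≠ 0 ∧
      ∀ p ∈ S, χ (Q.eval d * (x + p.eval d)) = χ (Q.eval d * x) := by
  classical
  have _ : Nonempty κ := ⟨χ 0⟩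
  obtain ⟨Q₁, hQ₁, hnd⟩ := exists_eq_pow_rootMultiplicity_mul_and_not_dvd Q hQ 0
  generalize rootMultiplicity 0 Q = s at hQ₁
  simp only [map_zero, sub_zero] at hQ₁ hnd
  have hQ0 : Q₁.eval 0 ≠ 0 := by rwa [X_dvd_iff, coeff_zero_eq_eval_zero] at hnd
  set m : ℚ[X][X] := X ^ s * dil Q₁ with hm
  have hmQ : ∀ w, X ^ s * m.eval w = aeval (X * w) Q := fun w => by
    rw [hQ₁, hm]
    simp only [eval_mul, eval_pow, eval_X, eval_dil, map_mul, map_pow, aeval_X]
    ring
  have hmap : ∀ (B : Type) [CommRing B] [IsDomain B] [CharZero B] (φ : ℚ[X] →+* B),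
      m.map φ ≠ 0 := by
    intro B _ _ _ φ
    rw [hm, Polynomial.map_mul, Polynomial.map_pow, map_X]
    refine mul_ne_zero (pow_ne_zero _ X_ne_zero) fun h => hQ0 ?_
    have h1 : ((dil Q₁).map φ).eval (φ 0) = 0 := by rw [h, eval_zero]
    rw [eval_map, eval₂_at_apply, eval_dil, mul_zero, ← coeff_zero_eq_aeval_zero'] at h1
    rw [← coeff_zero_eq_eval_zero]
    simpa using h1
  have hG : Generic m := generic_of_primitive (by simpa using hmap _ (RingHom.id _))
    fun q hq => by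
      have _ : (Ideal.span {q}).IsPrime := (Ideal.span_singleton_prime hq.ne_zero).2 hq
      have _ : CharZero (ℚ[X] ⧸ Ideal.span {q}) := algebraRat.charZero _
      exact hmap _ _
  have hSep : Sep m := by
    obtain ⟨ρ, hρ0, hρ⟩ := exists_diff_poly (Q := Q.map (algebraMap ℤ ℚ))
      ((Polynomial.map_ne_zero_iff (algebraMap ℤ ℚ).injective_int).2 hQ)
    intro a b hab
    refine ⟨aeval (X * (a - b)) ρ, ?_, fun w q _ h1 h2 => ?_⟩
    · rw [← comp_eq_aeval, Ne, comp_eq_zero_iff]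
      rintro (h | ⟨-, h⟩)
      · exact hρ0 h
      · simp only [mul_coeff_zero, coeff_X_zero, zero_mul, map_zero, mul_eq_zero, X_ne_zero,
          false_or] at h
        exact hab (sub_eq_zero.1 h)
    · let φ := Ideal.Quotient.mkₐ ℚ (Ideal.span {q})
      have hφ : ∀ y, φ y = 0 ↔ q ∣ y := fun y => by
        rw [← Ideal.mem_span_singleton, ← Ideal.Quotient.eq_zero_iff_mem]; rfl
      have hroot : ∀ u, q ∣ m.eval u → aeval (φ (X * u)) (Q.map (algebraMap ℤ ℚ)) = 0 := by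
        intro u hu
        rw [aeval_algHom_apply, hφ, aeval_map_algebraMap, ← hmQ]
        exact hu.mul_left _
      have := hρ _ _ _ (hroot _ h1) (hroot _ h2)
      rw [← map_sub, aeval_algHom_apply, hφ] at this
      have e : X * (a + w) - X * (b + w) = X * (a - b) := by ring
      rwa [e] at this
  let val : ℚ[X] → ℕ → ℤ := fun y n => ((X ^ (s + 1) * y).eval (n.factorial : ℚ)).num
  have hcol : ∀ y : ℚ[X], ∃ c : κ, ∀ᶠ n in (hyperfilter ℕ : Filter ℕ), χ (val y n) = c := by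
    intro y
    obtain ⟨c, hc⟩ := ((hyperfilter ℕ).map fun n => χ (val y n)).eq_pure_of_finite
    refine ⟨c, ?_⟩
    have : {c} ∈ (hyperfilter ℕ).map fun n => χ (val y n) := by rw [hc]; simp
    exact this
  choose χ' hχ' using hcol
  obtain ⟨x, w, hw, hmw, h⟩ := exists_mono_dvd hG hSep (S.image fun p => m * (X * dil p.divX))
    (by
      intro q hq
      obtain ⟨p, -, rfl⟩ := Finset.mem_image.1 hq
      simp) χ'
  have hev : ∀ᶠ n : ℕ in (hyperfilter ℕ : Filter ℕ),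
      ((∃ k : ℤ, (X * x).eval (n.factorial : ℚ) = (k : ℚ)) ∧
      (∃ k : ℤ, (X * w).eval (n.factorial : ℚ) = (k : ℚ)) ∧
      (X * w).eval (n.factorial : ℚ) ≠ 0 ∧ (X ^ s * m.eval w).eval (n.factorial : ℚ) ≠ 0) ∧
      χ (val (m.eval w * x) n) = χ' (m.eval w * x) ∧
      ∀ p ∈ S, χ (val (m.eval w * x + (m * (X * dil p.divX)).eval w) n) =
        χ' (m.eval w * x + (m * (X * dil p.divX)).eval w) := by
    refine Eventually.and (Eventually.filter_mono Nat.hyperfilter_le_atTop ?_)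
      ((hχ' _).and ((eventually_all_finset S).2 fun p _ => hχ' _))
    exact (eventually_int x).and ((eventually_int w).and
      ((eventually_ne_zero (mul_ne_zero X_ne_zero hw)).and
        (eventually_ne_zero (mul_ne_zero (pow_ne_zero _ X_ne_zero) hmw))))
  obtain ⟨n, ⟨⟨x', hx'⟩, ⟨d, hd⟩, hd0, hQd⟩, h1, h2⟩ := hev.exists
  have hev2 : ∀ p : ℤ[X], (aeval (X * w) p).eval (n.factorial : ℚ) = ((p.eval d : ℤ) : ℚ) := by
    intro p
    induction p using Polynomial.induction_on' with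
    | add p q hp hq => simp only [map_add, eval_add, hp, hq, Int.cast_add]
    | monomial j a =>
      rw [aeval_monomial, eval_mul, eval_pow, hd]
      simp
  have hv1 : val (m.eval w * x) n = Q.eval d * x' := by
    have : X ^ (s + 1) * (m.eval w * x) = aeval (X * w) Q * (X * x) := by
      rw [← hmQ]; ring
    simp only [val]
    rw [this, eval_mul, hev2, hx', ← Int.cast_mul, Rat.num_intCast]
  have hv2 : ∀ p ∈ S, val (m.eval w * x + (m * (X * dil p.divX)).eval w) n =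
      Q.eval d * (x' + p.eval d) := by
    intro p hp
    have h3 : aeval (X * w) p = X * w * aeval (X * w) p.divX := by
      conv_lhs => rw [← X_mul_divX_add p, coeff_zero_eq_eval_zero, hS p hp]
      simp
    have : X ^ (s + 1) * (m.eval w * x + (m * (X * dil p.divX)).eval w) =
        aeval (X * w) Q * (X * x + aeval (X * w) p) := by
      rw [← hmQ, h3, eval_mul (p := m), eval_mul (p := X), eval_X, eval_dil]; ring
    simp only [val]
    rw [this, eval_mul, eval_add, hev2, hev2, hx', ← Int.cast_add, ← Int.cast_mul, Rat.num_intCast]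
  refine ⟨x', d, ?_, ?_, fun p hp => ?_⟩
  · rintro rfl
    exact hd0 (by simpa using hd)
  · intro h0
    apply hQd
    rw [hmQ, hev2, h0, Int.cast_zero]
  · rw [← hv2 p hp, ← hv1, h1, h2 p hp]
    exact h _ (Finset.mem_image_of_mem _ hp)

end Pool.Agent.Lib.PolyVdW
end
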